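import Pool.Agent.helper33.CVX.Spec

set_option autoImplicit false

namespace Pool.Agent.CVX

open MvPolynomial

theorem GR0_inj {ι : Type} [Fintype ι] [DecidableEq ι] (n : ι → ℕ) (P : MvPolynomial (Vr n) ℂ)
    (h : ev n {x | Pt n x} P = 0) : P = 0 := by
  have h1 : P * ∏ i, X (⟨i, 0⟩ : Vr n) = 0 := by
    apply MvPolynomial.funext
    intro x
    rw [map_mul, map_zero, map_prod]
    by_cases hx : ∀ i, x ⟨i, 0⟩ ≠ 0
    · have h2 : Pt n x := fun i => ⟨0, hx i⟩
      have h3 := congrFun h ⟨x, h2⟩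
      have h4 : eval x P = 0 := h3
      rw [h4, zero_mul]
    · obtain ⟨i, hi'⟩ := not_forall.1 hx
      have hi : x ⟨i, 0⟩ = 0 := not_not.1 hi'
      have h2 : ∏ i, eval x (X (⟨i, 0⟩ : Vr n)) = 0 := by
        apply Finset.prod_eq_zero (Finset.mem_univ i)
        rw [eval_X, hi]
      rw [h2, mul_zero]
  rcases mul_eq_zero.1 h1 with h2 | h2
  · exact h2
  · exfalso
    rw [Finset.prod_eq_zero_iff] at h2
    obtain ⟨i, _, hi⟩ := h2
    exact X_ne_zero _ hi

/-- the exponents -/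
noncomputable def GR0_m {ι : Type} [Fintype ι] [DecidableEq ι] (n : ι → ℕ) (T : ℕ)
    (b : ∀ x : (Σ i : ι, Fin (n i)), Fin (T / (n x.1 + 1) + 1)) : Vr n →₀ ℕ :=
  Finsupp.equivFunOnFinite.symm (fun v : Vr n =>
    Fin.cases (motive := fun _ => ℕ) (T - ∑ a : Fin (n v.1), ((b ⟨v.1, a⟩ : Fin _) : ℕ))
      (fun a => ((b ⟨v.1, a⟩ : Fin _) : ℕ)) v.2)

theorem GR0_m_zero {ι : Type} [Fintype ι] [DecidableEq ι] (n : ι → ℕ) (T : ℕ)
    (b : ∀ x : (Σ i : ι, Fin (n i)), Fin (T / (n x.1 + 1) + 1)) (i : ι) :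
    GR0_m n T b ⟨i, 0⟩ = T - ∑ a : Fin (n i), ((b ⟨i, a⟩ : Fin _) : ℕ) := rfl

theorem GR0_m_succ {ι : Type} [Fintype ι] [DecidableEq ι] (n : ι → ℕ) (T : ℕ)
    (b : ∀ x : (Σ i : ι, Fin (n i)), Fin (T / (n x.1 + 1) + 1)) (i : ι) (a : Fin (n i)) :
    GR0_m n T b ⟨i, a.succ⟩ = ((b ⟨i, a⟩ : Fin _) : ℕ) := rfl

theorem GR0 (hFDM : FDM_stmt) : GR0_stmt := by
  intro ι _ _ n
  refine ⟨∏ i, (1 / ((n i : ℝ) + 1)) ^ (n i), Finset.prod_pos fun i _ => by positivity, 0, ?_⟩
  intro T _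
  set B : Type := ∀ x : (Σ i : ι, Fin (n i)), Fin (T / (n x.1 + 1) + 1) with hB
  have hinj : Function.Injective (GR0_m n T) := by
    intro b b' hbb
    funext x
    obtain ⟨i, a⟩ := x
    have h := congrArg (fun m : Vr n →₀ ℕ => m ⟨i, a.succ⟩) hbb
    simp only [GR0_m_succ] at h
    exact Fin.ext h
  have hMH : ∀ b : B, (monomial (GR0_m n T b) (1 : ℂ)) ∈ Sv n (fun _ => T) := by
    intro b m hm i
    have h1 : m = GR0_m n T b := by
      by_contra hne
      rw [mem_support_iff, coeff_monomial, if_neg (fun h => hne h.symm)] at hm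
      exact hm rfl
    rw [h1]
    unfold mdeg
    rw [Fin.sum_univ_succ, GR0_m_zero]
    have h2 : ∀ a : Fin (n i), GR0_m n T b ⟨i, a.succ⟩ = ((b ⟨i, a⟩ : Fin _) : ℕ) := fun a => rfl
    rw [Finset.sum_congr rfl fun a _ => h2 a]
    apply Nat.sub_add_cancel
    have h3 : ∀ a : Fin (n i), ((b ⟨i, a⟩ : Fin _) : ℕ) ≤ T / (n i + 1) := fun a =>
      Nat.lt_succ_iff.1 (b ⟨i, a⟩).2
    calc ∑ a : Fin (n i), ((b ⟨i, a⟩ : Fin _) : ℕ) ≤ ∑ _a : Fin (n i), T / (n i + 1) :=
          Finset.sum_le_sum fun a _ => h3 a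
      _ = n i * (T / (n i + 1)) := by rw [Finset.sum_const, Finset.card_univ, Fintype.card_fin, smul_eq_mul]
      _ ≤ (n i + 1) * (T / (n i + 1)) := Nat.mul_le_mul_right _ (Nat.le_succ _)
      _ ≤ T := Nat.mul_div_le _ _
  have : Module.Finite ℂ (Sv n (fun _ => T)) := hFDM ι n (fun _ => T)
  have : Module.Finite ℂ ((Sv n (fun _ => T)).map (ev n {x | Pt n x})) := inferInstance
  have hcard : Fintype.card B ≤ hZ n {x | Pt n x} (fun _ => T) := by
    let u : B → ((Sv n (fun _ => T)).map (ev n {x | Pt n x})) := fun b =>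
      ⟨ev n {x | Pt n x} (monomial (GR0_m n T b) (1 : ℂ)), Submodule.mem_map_of_mem (hMH b)⟩
    have hu : LinearIndependent ℂ u := by
      rw [Fintype.linearIndependent_iff]
      intro g hg b
      have h1 : ev n {x | Pt n x} (∑ b, g b • monomial (GR0_m n T b) (1 : ℂ)) = 0 := by
        rw [map_sum]
        have h2 := congrArg Subtype.val hg
        rw [AddSubmonoidClass.coe_finsetSum] at h2
        refine Eq.trans (Finset.sum_congr rfl fun b _ => ?_) h2
        rw [map_smul]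
        rfl
      have h3 := GR0_inj n _ h1
      have h4 := congrArg (coeff (GR0_m n T b)) h3
      rw [coeff_sum, coeff_zero, Finset.sum_eq_single b] at h4
      · rw [coeff_smul, coeff_monomial, if_pos rfl, smul_eq_mul, mul_one] at h4
        exact h4
      · intro b' _ hb'
        rw [coeff_smul, coeff_monomial, if_neg (fun h => hb' (hinj h)), smul_zero]
      · intro h
        exact absurd (Finset.mem_univ b) h
    exact hu.fintype_card_le_finrank
  have hcB : Fintype.card B = ∏ i, (T / (n i + 1) + 1) ^ (n i) := by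
    rw [Fintype.card_pi, Fintype.prod_sigma]
    apply Finset.prod_congr rfl
    intro i _
    rw [Finset.prod_congr rfl (g := fun _ : Fin (n i) => T / (n i + 1) + 1) (fun a _ => Fintype.card_fin _),
      Finset.prod_const, Finset.card_univ, Fintype.card_fin]
  rw [hcB] at hcard
  have h1 : (∏ i, (1 / ((n i : ℝ) + 1)) ^ (n i)) * (T : ℝ) ^ (∑ i, n i) =
      ∏ i, ((T : ℝ) / ((n i : ℝ) + 1)) ^ (n i) := by
    rw [← Finset.prod_pow_eq_pow_sum, ← Finset.prod_mul_distrib]
    apply Finset.prod_congr rfl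
    intro i _
    rw [← mul_pow]
    congr 1
    ring
  rw [h1]
  have h2 : (∏ i, ((T : ℝ) / ((n i : ℝ) + 1)) ^ (n i)) ≤ ((∏ i, (T / (n i + 1) + 1) ^ (n i) : ℕ) : ℝ) := by
    push_cast
    apply Finset.prod_le_prod
    · intro i _
      positivity
    · intro i _
      apply pow_le_pow_left₀ (by positivity)
      have h3 : (T : ℝ) < ((T / (n i + 1) + 1 : ℕ) : ℝ) * ((n i : ℝ) + 1) := by
        have h4 : T < (T / (n i + 1) + 1) * (n i + 1) := by
          have := Nat.lt_succ_self (T / (n i + 1))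
          exact Nat.lt_mul_of_div_lt this (Nat.succ_pos _)
        exact_mod_cast h4
      rw [div_le_iff₀ (by positivity)]
      push_cast at h3
      exact h3.le
  refine le_trans h2 ?_
  exact_mod_cast hcard

end Pool.Agent.CVX
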