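import Pool.Agent.helper33.CVX.Spec

set_option autoImplicit false

namespace Pool.Agent.CVX

open MvPolynomial

theorem LIA_lin {σ : Type} [Fintype σ] [DecidableEq σ] (H : MvPolynomial σ ℂ) (y : σ → ℂ) :
    eval y (homogeneousComponent 1 H) = ∑ b, y b * eval 0 (pderiv b H) := by
  have h1 : homogeneousComponent 1 H = ∑ b, monomial (Finsupp.single b 1) (coeff (Finsupp.single b 1) H) := by
    ext d
    rw [coeff_homogeneousComponent, coeff_sum]
    split_ifs with hd
    · have h2 : d ∈ Set.range (fun a : σ => Finsupp.single a 1) := by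
        rw [Finsupp.range_single_one]
        exact hd
      obtain ⟨b, hb⟩ := h2
      subst hb
      rw [Finset.sum_eq_single b]
      · rw [coeff_monomial, if_pos rfl]
      · intro b' _ hb'
        rw [coeff_monomial, if_neg]
        intro h
        exact hb' (Finsupp.single_left_injective one_ne_zero h)
      · intro h
        exact absurd (Finset.mem_univ b) h
    · symm
      apply Finset.sum_eq_zero
      intro b _
      rw [coeff_monomial, if_neg]
      intro h
      apply hd
      rw [← h]
      exact Finsupp.degree_single b 1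
  rw [h1, map_sum]
  apply Finset.sum_congr rfl
  intro b _
  rw [eval_monomial, MvPolynomial.eval_zero, constantCoeff_eq, coeff_pderiv, zero_add]
  rw [Finsupp.prod_single_index (by rw [pow_zero]), pow_one]
  simp only [Finsupp.coe_zero, Pi.zero_apply, Nat.cast_zero, zero_add, mul_one]
  ring

theorem LIA_chain {σ τ : Type} [Fintype σ] (g : σ → MvPolynomial τ ℂ) (F : MvPolynomial σ ℂ) (b : τ) :
    pderiv b (bind₁ g F) = ∑ v, bind₁ g (pderiv v F) * pderiv b (g v) := by
  classical
  induction F using MvPolynomial.induction_on with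
  | C a =>
    rw [bind₁_C_right, pderiv_C]
    symm
    apply Finset.sum_eq_zero
    intro v _
    rw [pderiv_C, map_zero, zero_mul]
  | add p q hp hq =>
    rw [map_add, map_add, hp, hq, ← Finset.sum_add_distrib]
    apply Finset.sum_congr rfl
    intro v _
    rw [map_add, map_add, add_mul]
  | mul_X p i hp =>
    rw [map_mul, bind₁_X_right, pderiv_mul, hp]
    have h : ∀ v, bind₁ g (pderiv v (p * X i)) * pderiv b (g v) =
        (bind₁ g (pderiv v p) * pderiv b (g v)) * g i +
          bind₁ g p * (if v = i then pderiv b (g v) else 0) := by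
      intro v
      rw [pderiv_mul, map_add, map_mul, map_mul, bind₁_X_right]
      by_cases hv : v = i
      · subst hv
        rw [pderiv_X_self, map_one, if_pos rfl]
        ring
      · rw [pderiv_X_of_ne (fun h => hv h.symm), map_zero, if_neg hv]
        ring
    rw [Finset.sum_congr rfl fun v _ => h v, Finset.sum_add_distrib, ← Finset.sum_mul, ← Finset.mul_sum,
      Finset.sum_ite_eq' Finset.univ i, if_pos (Finset.mem_univ i)]

theorem LIA_pd (q : ℕ) (c : ℂ) (M : Fin (q + 1) → ℂ) (b : Vr (fun _ : Unit => q)) :
    pderiv b (C c + ∑ b', C (M b') * X (⟨(), b'⟩ : Vr (fun _ : Unit => q)) :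
      MvPolynomial (Vr (fun _ : Unit => q)) ℂ) = C (M b.2) := by
  rw [map_add, pderiv_C, zero_add, map_sum, Finset.sum_eq_single b.2]
  · rw [pderiv_C_mul]
    have h7 : (⟨(), b.2⟩ : Vr (fun _ : Unit => q)) = b := rfl
    rw [h7, pderiv_X_self, mul_one]
  · intro b' _ hb'
    rw [pderiv_C_mul, pderiv_X_of_ne, mul_zero]
    intro h
    apply hb'
    rw [← h]
  · intro h
    exact absurd (Finset.mem_univ _) h

theorem LIA_evb {σ τ : Type} (g : σ → MvPolynomial τ ℂ) (F : MvPolynomial σ ℂ) (y : τ → ℂ) :
    eval y (bind₁ g F) = eval (fun v => eval y (g v)) F := by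
  have h1 : aeval y (bind₁ g F) = aeval (fun v => aeval y (g v)) F := aeval_bind₁ y g F
  exact h1

theorem LIA (hHSC : HSC_stmt) : LIA_stmt := by
  intro ι _ _ n d F hF i p q M hM
  classical
  obtain ⟨g, hg⟩ : ∃ g : Vr n → MvPolynomial (Vr (fun _ : Unit => q)) ℂ,
      ∀ v, g v = C (p v) + ∑ b, C (M v b) * X (⟨(), b⟩ : Vr (fun _ : Unit => q)) := ⟨_, fun _ => rfl⟩
  obtain ⟨G, hG⟩ : ∃ G : MvPolynomial (Vr (fun _ : Unit => q)) ℂ, G = bind₁ g F := ⟨_, rfl⟩
  have hevg : ∀ (y : Vr (fun _ : Unit => q) → ℂ) (v : Vr n), eval y (g v) = p v + ∑ b, M v b * y ⟨(), b⟩ := by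
    intro y v
    rw [hg]
    simp only [map_add, eval_C, map_sum, map_mul, eval_X]
  have hevG : ∀ (y : Vr (fun _ : Unit => q) → ℂ), eval y G = eval (fun v => p v + ∑ b, M v b * y ⟨(), b⟩) F := by
    intro y
    rw [hG, LIA_evb]
    have h2 : (fun v => eval y (g v)) = fun v => p v + ∑ b, M v b * y ⟨(), b⟩ := by
      funext v
      exact hevg y v
    rw [h2]
  have hMH : ∀ a : ℕ, MHom (fun _ : Unit => q) (fun _ => a) (homogeneousComponent a G) := by
    intro a m hm j
    have h1 := homogeneousComponent_isHomogeneous a G
    have h2 := h1 (mem_support_iff.1 hm)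
    unfold mdeg
    have h3 : Finsupp.weight 1 m = ∑ v : Vr (fun _ : Unit => q), m v := by
      rw [Finsupp.weight_apply, Finsupp.sum_fintype _ _ (fun _ => by simp)]
      apply Finset.sum_congr rfl
      intro v _
      simp
    rw [h3, Fintype.sum_sigma] at h2
    rw [Fintype.sum_unique] at h2
    exact h2
  -- total degree
  have hdeg : G.totalDegree ≤ d i := by
    have h1 : G = ∑ m ∈ F.support, C (coeff m F) * ∏ v, g v ^ (m v) := by
      rw [hG]
      conv_lhs => rw [← MvPolynomial.support_sum_monomial_coeff F]
      rw [map_sum]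
      apply Finset.sum_congr rfl
      intro m _
      rw [bind₁_monomial]
      congr 1
      rw [Finset.prod_subset (Finset.subset_univ m.support)]
      intro v _ hv
      rw [Finsupp.notMem_support_iff.1 hv, pow_zero]
    rw [h1]
    apply totalDegree_finsetSum_le
    intro m hm
    refine le_trans (totalDegree_mul _ _) ?_
    rw [totalDegree_C, zero_add]
    refine le_trans (totalDegree_finsetProd _ _) ?_
    have h2 := hF m hm i
    rw [← h2]
    unfold mdeg
    rw [Fintype.sum_sigma, Finset.sum_eq_single i]
    · apply Finset.sum_le_sum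
      intro a _
      refine le_trans (totalDegree_pow _ _) ?_
      have h3 : (g ⟨i, a⟩).totalDegree ≤ 1 := by
        rw [hg]
        refine le_trans (totalDegree_add _ _) (max_le ?_ ?_)
        · rw [totalDegree_C]; exact Nat.zero_le _
        · apply totalDegree_finsetSum_le
          intro b _
          refine le_trans (totalDegree_mul _ _) ?_
          rw [totalDegree_C, totalDegree_X]
      calc m ⟨i, a⟩ * (g ⟨i, a⟩).totalDegree ≤ m ⟨i, a⟩ * 1 := Nat.mul_le_mul_left _ h3
        _ = m ⟨i, a⟩ := mul_one _
    · intro j _ hj
      apply Finset.sum_eq_zero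
      intro a _
      have h3 : g ⟨j, a⟩ = C (p ⟨j, a⟩) := by
        rw [hg, Finset.sum_eq_zero, add_zero]
        intro b _
        rw [hM ⟨j, a⟩ hj b, map_zero, zero_mul]
      rw [h3, ← map_pow, totalDegree_C]
    · intro h
      exact absurd (Finset.mem_univ i) h
  have hsumG : ∀ y : Vr (fun _ : Unit => q) → ℂ, eval y G =
      ∑ a ∈ Finset.range (d i + 1), eval y (homogeneousComponent a G) := by
    intro y
    rw [← map_sum]
    congr 1
    conv_lhs => rw [← sum_homogeneousComponent G]
    apply Finset.sum_subset
    · intro a ha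
      rw [Finset.mem_range] at ha ⊢
      omega
    · intro a _ ha
      rw [Finset.mem_range, not_lt] at ha
      exact homogeneousComponent_eq_zero _ _ (by omega)
  refine ⟨fun a => homogeneousComponent a G, hMH, ?_, ?_, ?_⟩
  · intro y
    show eval y (homogeneousComponent 0 G) = eval p F
    rw [homogeneousComponent_zero, eval_C]
    have h1 := hevG 0
    rw [MvPolynomial.eval_zero, constantCoeff_eq] at h1
    rw [h1]
    congr 1
    have h2 : (fun v => p v + ∑ b, M v b * (0 : Vr (fun _ : Unit => q) → ℂ) ⟨(), b⟩) = p := by
      funext v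
      simp
    rw [h2]
  · intro y
    show eval y (homogeneousComponent 1 G) = _
    rw [LIA_lin]
    have h1 : ∀ b : Vr (fun _ : Unit => q), eval 0 (pderiv b G) =
        ∑ a : Fin (n i + 1), eval p (pderiv ⟨i, a⟩ F) * M ⟨i, a⟩ b.2 := by
      intro b
      rw [hG, LIA_chain, map_sum]
      have h2 : ∀ v, eval 0 (bind₁ g (pderiv v F) * pderiv b (g v)) = eval p (pderiv v F) * M v b.2 := by
        intro v
        rw [map_mul]
        have h3 : eval 0 (bind₁ g (pderiv v F)) = eval p (pderiv v F) := by
          rw [LIA_evb]
          have h5 : (fun v => eval 0 (g v)) = p := by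
            funext v
            rw [hevg]
            simp
          rw [h5]
        have h6 : pderiv b (g v) = C (M v b.2) := by
          rw [hg]
          exact LIA_pd q (p v) (M v) b
        rw [h3, h6, eval_C]
      rw [Finset.sum_congr rfl fun v _ => h2 v, Fintype.sum_sigma, Finset.sum_eq_single i]
      · intro j _ hj
        apply Finset.sum_eq_zero
        intro a _
        rw [hM ⟨j, a⟩ hj, mul_zero]
      · intro h
        exact absurd (Finset.mem_univ i) h
    rw [Finset.sum_congr rfl fun b _ => by rw [h1 b], Fintype.sum_sigma, Fintype.sum_unique]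
    simp_rw [Finset.mul_sum, Finset.sum_mul]
    rw [Finset.sum_comm]
    apply Finset.sum_congr rfl
    intro a _
    apply Finset.sum_congr rfl
    intro b _
    show y ⟨(), b⟩ * (eval p (pderiv ⟨i, a⟩ F) * M ⟨i, a⟩ b) = _
    ring
  · intro s t y
    have key : ∀ s : ℂ, s ≠ 0 →
        eval (fun v : Vr n => if v.1 = i then s * p v + t * ∑ b, M v b * y ⟨(), b⟩ else p v) F =
          ∑ a ∈ Finset.range (d i + 1), s ^ (d i - a) * t ^ a * eval y (homogeneousComponent a G) := by
      intro s hs
      have h1 := hHSC ι n d F hF (fun j => if j = i then s else 1)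
        (fun v => p v + ∑ b, M v b * ((t / s) * y ⟨(), b⟩))
      have h2 : (fun v : Vr n => (if v.1 = i then s else 1) * (p v + ∑ b, M v b * ((t / s) * y ⟨(), b⟩))) =
          fun v : Vr n => if v.1 = i then s * p v + t * ∑ b, M v b * y ⟨(), b⟩ else p v := by
        funext v
        split_ifs with hv
        · rw [mul_add]
          congr 1
          rw [Finset.mul_sum, Finset.mul_sum]
          apply Finset.sum_congr rfl
          intro b _
          field_simp
        · rw [one_mul, Finset.sum_eq_zero, add_zero]
          intro b _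
          rw [hM v hv b, zero_mul]
      rw [h2] at h1
      rw [h1]
      have h3 : ∏ j, (if j = i then s else 1) ^ d j = s ^ d i := by
        rw [Finset.prod_eq_single i]
        · rw [if_pos rfl]
        · intro j _ hj
          rw [if_neg hj, one_pow]
        · intro h
          exact absurd (Finset.mem_univ i) h
      rw [h3]
      have h4 := hevG (fun v => (t / s) * y v)
      rw [hsumG] at h4
      rw [← h4, Finset.mul_sum]
      apply Finset.sum_congr rfl
      intro a ha
      have h5 := hHSC Unit (fun _ => q) (fun _ => a) (homogeneousComponent a G) (hMH a) (fun _ => t / s) y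
      have h6 : (fun v : Vr (fun _ : Unit => q) => (t / s) * y v) =
          fun v : Vr (fun _ : Unit => q) => (fun _ : Unit => t / s) v.1 * y v := rfl
      rw [h6, h5, Fintype.prod_unique, ← mul_assoc]
      congr 1
      rw [Finset.mem_range] at ha
      have h7 : d i = (d i - a) + a := by omega
      conv_lhs => rw [h7]
      rw [pow_add, div_pow]
      field_simp
    by_cases hs : s = 0
    · have hc1 : Continuous (fun s : ℂ =>
          eval (fun v : Vr n => if v.1 = i then s * p v + t * ∑ b, M v b * y ⟨(), b⟩ else p v) F) := by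
        have h1 : Continuous (fun s : ℂ =>
          (fun v : Vr n => if v.1 = i then s * p v + t * ∑ b, M v b * y ⟨(), b⟩ else p v)) := by
          apply continuous_pi
          intro v
          by_cases hv : v.1 = i
          · simp only [if_pos hv]
            fun_prop
          · simp only [if_neg hv]
            fun_prop
        exact (MvPolynomial.continuous_eval F).comp h1
      have hc2 : Continuous (fun s : ℂ =>
          ∑ a ∈ Finset.range (d i + 1), s ^ (d i - a) * t ^ a * eval y (homogeneousComponent a G)) := by
        fun_prop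
      have h2 := Continuous.ext_on (dense_compl_singleton (0 : ℂ)) hc1 hc2 (fun s hs => key s hs)
      exact congrFun h2 s
    · exact key s hs

end Pool.Agent.CVX
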