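import Pool.Agent.helper33.CVX.Spec

set_option autoImplicit false

namespace Pool.Agent.CVX

open MvPolynomial

theorem LIN (hLEN : LEN_stmt) (hLIA : LIA_stmt) : LIN_stmt := by
  intro ι _ _ n J _ _ d F hdat i p hp hFp l hl hlin hsum
  obtain ⟨hpos, hhom⟩ := hdat
  obtain ⟨j1, hj1⟩ := hl
  obtain ⟨a0, ha0⟩ := hp i
  have hd1 : ∀ j, 1 ≤ d j i := fun j => hpos j i
  have hsum1 : 1 ≤ ∑ j, d j i := le_trans (hd1 j1)
    (Finset.single_le_sum (f := fun j => d j i) (fun _ _ => Nat.zero_le _) (Finset.mem_univ j1))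
  obtain ⟨q, hq⟩ : ∃ q, n i = q + 1 := ⟨n i - 1, by omega⟩
  let e : Fin (q + 1) → Fin (n i + 1) := fun b => a0.succAbove (Fin.cast hq.symm b)
  have he : Function.Injective e := by
    intro b b' h
    have h1 := Fin.succAbove_right_injective h
    exact Fin.cast_injective _ h1
  have hea0 : ∀ b, e b ≠ a0 := fun b => Fin.succAbove_ne a0 _
  let M : Vr n → Fin (q + 1) → ℂ := fun v b => if v = ⟨i, e b⟩ then 1 else 0
  have hM : ∀ v : Vr n, v.1 ≠ i → ∀ b, M v b = 0 := by
    intro v hv b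
    show (if v = ⟨i, e b⟩ then (1 : ℂ) else 0) = 0
    rw [if_neg]
    intro h
    exact hv (by rw [h])
  -- the expansions
  have hΦ := fun j => hLIA ι n (d j) (F j) (hhom j) i p q M hM
  choose Φ hΦ1 hΦ2 hΦ3 hΦ4 using hΦ
  -- the index type
  let I : Type := {x : (Σ j : J, Fin (d j i)) // x ≠ ⟨j1, ⟨0, hd1 j1⟩⟩}
  have hcard : Fintype.card I ≤ ∑ _ : Unit, q := by
    have h1 : Fintype.card I = ∑ j, d j i - 1 := by
      show Fintype.card {x : (Σ j : J, Fin (d j i)) // x ≠ ⟨j1, ⟨0, hd1 j1⟩⟩} = _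
      rw [Fintype.card_subtype_compl, Fintype.card_sigma, Fintype.card_subtype_eq]
      congr 1
      apply Finset.sum_congr rfl
      intro j _
      rw [Fintype.card_fin]
    have h2 : ∑ _ : Unit, q = q := Fintype.sum_unique _
    rw [h1, h2]
    omega
  obtain ⟨y, hy, hy0⟩ := hLEN Unit (fun _ => q) I (fun x _ => (x.1.2 : ℕ) + 1)
    (fun x => Φ x.1.1 ((x.1.2 : ℕ) + 1)) (fun _ _ => Nat.le_add_left _ _)
    (fun x => hΦ1 x.1.1 ((x.1.2 : ℕ) + 1)) hcard
  obtain ⟨b0, hb0⟩ := hy ()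
  let V : Vr n → ℂ := fun v => ∑ b, M v b * y ⟨(), b⟩
  have hVe : ∀ b, V ⟨i, e b⟩ = y ⟨(), b⟩ := by
    intro b
    show ∑ b', (if (⟨i, e b⟩ : Vr n) = ⟨i, e b'⟩ then (1 : ℂ) else 0) * y ⟨(), b'⟩ = y ⟨(), b⟩
    rw [Finset.sum_eq_single b]
    · rw [if_pos rfl, one_mul]
    · intro b' _ hb'
      rw [if_neg, zero_mul]
      intro h
      apply hb'
      have h2 : e b = e b' := eq_of_heq (Sigma.mk.inj h).2
      exact (he h2).symm
    · intro h
      exact absurd (Finset.mem_univ b) h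
  have hVa0 : V ⟨i, a0⟩ = 0 := by
    show ∑ b', (if (⟨i, a0⟩ : Vr n) = ⟨i, e b'⟩ then (1 : ℂ) else 0) * y ⟨(), b'⟩ = 0
    apply Finset.sum_eq_zero
    intro b' _
    rw [if_neg, zero_mul]
    intro h
    have h2 : a0 = e b' := eq_of_heq (Sigma.mk.inj h).2
    exact hea0 b' h2.symm
  -- vanishing
  have hvan : ∀ (j : J) (a : ℕ), a ≤ d j i → eval y (Φ j a) = 0 := by
    have h1 : ∀ (j : J) (a : ℕ) (ha : a < d j i), (j ≠ j1 ∨ a ≠ 0) → eval y (Φ j (a + 1)) = 0 := by
      intro j a ha h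
      have hne : (⟨j, ⟨a, ha⟩⟩ : Σ j : J, Fin (d j i)) ≠ ⟨j1, ⟨0, hd1 j1⟩⟩ := by
        intro h2
        have h3 := Sigma.mk.inj h2
        obtain ⟨h4, h5⟩ := h3
        subst h4
        have h6 := congrArg Fin.val (eq_of_heq h5)
        rcases h with h | h
        · exact h rfl
        · exact h h6
      exact hy0 ⟨⟨j, ⟨a, ha⟩⟩, hne⟩
    have h2 : eval y (Φ j1 1) = 0 := by
      have h3 : ∑ j, l j * eval y (Φ j 1) = 0 := by
        have h4 : ∀ j, l j * eval y (Φ j 1) =
            ∑ a : Fin (n i + 1), (∑ b, M ⟨i, a⟩ b * y ⟨(), b⟩) * (l j * eval p (pderiv ⟨i, a⟩ (F j))) := by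
          intro j
          rw [hΦ3, Finset.mul_sum]
          apply Finset.sum_congr rfl
          intro a _
          ring
        rw [Finset.sum_congr rfl fun j _ => h4 j, Finset.sum_comm]
        apply Finset.sum_eq_zero
        intro a _
        rw [← Finset.mul_sum, hlin a, mul_zero]
      rw [Finset.sum_eq_single j1] at h3
      · exact (mul_eq_zero.1 h3).resolve_left hj1
      · intro j _ hj
        have h5 := h1 j 0 (hd1 j) (Or.inl hj)
        rw [zero_add] at h5
        rw [h5, mul_zero]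
      · intro h
        exact absurd (Finset.mem_univ j1) h
    intro j a ha
    rcases Nat.eq_zero_or_pos a with h0 | h0
    · rw [h0, hΦ2, hFp]
    · obtain ⟨a', rfl⟩ : ∃ a', a = a' + 1 := ⟨a - 1, by omega⟩
      by_cases h3 : j ≠ j1 ∨ a' ≠ 0
      · exact h1 j a' (by omega) h3
      · rw [not_or, not_not, not_not] at h3
        rw [h3.1, h3.2, zero_add]
        exact h2
  refine ⟨V, ?_, ?_, ?_⟩
  · intro v hv
    show ∑ b, M v b * y ⟨(), b⟩ = 0
    apply Finset.sum_eq_zero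
    intro b _
    rw [hM v hv b, zero_mul]
  · intro s t hst
    by_cases hs : s = 0
    · have ht : t ≠ 0 := by
        rcases hst with h | h
        · exact absurd hs h
        · exact h
      refine ⟨e b0, ?_⟩
      rw [hs, zero_mul, zero_add, hVe]
      exact mul_ne_zero ht hb0
    · refine ⟨a0, ?_⟩
      rw [hVa0, mul_zero, add_zero]
      exact mul_ne_zero hs ha0
  · intro j s t
    have h1 := hΦ4 j s t y
    have h2 : (fun v : Vr n => if v.1 = i then s * p v + t * V v else p v) =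
        fun v : Vr n => if v.1 = i then s * p v + t * ∑ b, M v b * y ⟨(), b⟩ else p v := rfl
    rw [h2, h1]
    apply Finset.sum_eq_zero
    intro a ha
    rw [Finset.mem_range] at ha
    rw [hvan j a (by omega), mul_zero]

end Pool.Agent.CVX
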