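import Pool.Agent.helper33.CVX.Spec

set_option autoImplicit false

namespace Pool.Agent.CVX

open MvPolynomial

theorem IND (hMNT : MNT_stmt) (hSTP : STP_stmt) : IND_stmt := by
  intro ι _ _ _ n Z hpt hTS hCl w hw f hf D hGr
  obtain ⟨c, hc, T₀, hT₀⟩ := hGr
  obtain ⟨C, v0, hC⟩ := hSTP ι n Z hpt hTS hCl w f hf
  set Z' : Set (Vr n → ℂ) := {x | x ∈ Z ∧ eval x f = 0} with hZ'
  have hpt' : ∀ x ∈ Z', Pt n x := fun x hx => hpt x hx.1
  have hM := hMNT ι n Z hpt
  have hM' := hMNT ι n Z' hpt'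
  set K : ℕ := ∏ i, (n i + 1) with hK
  have hK1 : 1 ≤ K := Finset.prod_pos fun i _ => Nat.succ_pos _
  set T1 : ℕ := ∑ i, v0 i with hT1
  set A : ℕ := ∑ i, w i with hA
  have hwA : ∀ i, w i ≤ A := fun i => Finset.single_le_sum (fun _ _ => Nat.zero_le _) (Finset.mem_univ i)
  have hA1 : 1 ≤ A := le_trans (hw (Classical.arbitrary ι)) (hwA _)
  have hv0 : ∀ j : ℕ, v0 ≤ (fun i => T1 + j * w i) := by
    intro j i
    have h : v0 i ≤ T1 := Finset.single_le_sum (fun _ _ => Nat.zero_le _) (Finset.mem_univ i)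
    exact le_trans h (Nat.le_add_right _ _)
  have htel : ∀ m j : ℕ, j ≤ m → hZ n Z (fun i => T1 + j * w i) ≤
      hZ n Z (fun _ => T1) + C * j * K * hZ n Z' (fun _ => T1 + m * A) := by
    intro m j
    induction j with
    | zero =>
      intro _
      have h : (fun i : ι => T1 + 0 * w i) = fun _ => T1 := by
        funext i; ring
      rw [h]
      exact Nat.le_add_right _ _
    | succ j ih =>
      intro hj
      have h1 := hC (fun i => T1 + j * w i) (hv0 j)
      have h2 : (fun i => T1 + j * w i) + w = fun i => T1 + (j + 1) * w i := by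
        funext i
        simp only [Pi.add_apply]
        ring
      rw [h2] at h1
      have h3 : hZ n Z' (fun i => T1 + (j + 1) * w i) ≤ K * hZ n Z' (fun _ => T1 + m * A) := by
        apply hM'
        intro i
        show T1 + (j + 1) * w i ≤ T1 + m * A
        exact Nat.add_le_add_left (Nat.mul_le_mul hj (hwA i)) _
      calc hZ n Z (fun i => T1 + (j + 1) * w i)
          ≤ hZ n Z (fun i => T1 + j * w i) + C * hZ n Z' (fun i => T1 + (j + 1) * w i) := h1
        _ ≤ (hZ n Z (fun _ => T1) + C * j * K * hZ n Z' (fun _ => T1 + m * A)) +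
            C * (K * hZ n Z' (fun _ => T1 + m * A)) :=
            Nat.add_le_add (ih (by omega)) (Nat.mul_le_mul_left _ h3)
        _ = _ := by ring
  have hmain : ∀ m : ℕ, hZ n Z (fun _ => m) ≤
      K * (hZ n Z (fun _ => T1) + C * m * K * hZ n Z' (fun _ => T1 + m * A)) := by
    intro m
    have h1 : hZ n Z (fun _ => m) ≤ K * hZ n Z (fun i => T1 + m * w i) := by
      apply hM
      intro i
      show m ≤ T1 + m * w i
      have h2 : m * 1 ≤ m * w i := Nat.mul_le_mul_left _ (hw i)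
      omega
    exact le_trans h1 (Nat.mul_le_mul_left _ (htel m m le_rfl))
  set B : ℕ := K * hZ n Z (fun _ => T1) with hB
  have hKR : (1 : ℝ) ≤ K := by exact_mod_cast hK1
  have hAR : (1 : ℝ) ≤ A := by exact_mod_cast hA1
  -- lower bound for large m
  obtain ⟨M₀, hM₀⟩ := exists_nat_ge (2 * (B : ℝ) / c)
  have hlow : ∀ m : ℕ, T₀ ≤ m → M₀ ≤ m → 1 ≤ m →
      c / 2 * (m : ℝ) ^ D ≤ ((C : ℝ) + 1) * K ^ 2 * hZ n Z' (fun _ => T1 + m * A) := by
    intro m h1 h2 h3
    have h4 := hT₀ m h1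
    have h5 : (hZ n Z (fun _ => m) : ℝ) ≤ B + C * m * K ^ 2 * hZ n Z' (fun _ => T1 + m * A) := by
      have h6 : ((hZ n Z (fun _ => m) : ℕ) : ℝ) ≤
          ((K * (hZ n Z (fun _ => T1) + C * m * K * hZ n Z' (fun _ => T1 + m * A)) : ℕ) : ℝ) := by
        exact_mod_cast hmain m
      refine le_trans h6 (le_of_eq ?_)
      rw [hB]
      push_cast
      ring
    have hm1 : (1 : ℝ) ≤ m := by exact_mod_cast h3
    have h7 : 2 * (B : ℝ) ≤ c * (m : ℝ) ^ (D + 1) := by
      have h8 : 2 * (B : ℝ) / c ≤ m := le_trans hM₀ (by exact_mod_cast h2)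
      have h9 : (m : ℝ) ≤ (m : ℝ) ^ (D + 1) := by
        have := pow_le_pow_right₀ hm1 (show 1 ≤ D + 1 by omega)
        rwa [pow_one] at this
      rw [div_le_iff₀ hc] at h8
      calc 2 * (B : ℝ) ≤ m * c := h8
        _ ≤ (m : ℝ) ^ (D + 1) * c := mul_le_mul_of_nonneg_right h9 hc.le
        _ = _ := by ring
    have h10 : c / 2 * (m : ℝ) ^ (D + 1) ≤ C * m * K ^ 2 * hZ n Z' (fun _ => T1 + m * A) := by
      linarith
    have h11 : (c / 2 * (m : ℝ) ^ D) * m ≤ (((C : ℝ) + 1) * K ^ 2 * hZ n Z' (fun _ => T1 + m * A)) * m := by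
      have h12 : (0 : ℝ) ≤ m * K ^ 2 * hZ n Z' (fun _ => T1 + m * A) := by positivity
      calc (c / 2 * (m : ℝ) ^ D) * m = c / 2 * (m : ℝ) ^ (D + 1) := by ring
        _ ≤ C * m * K ^ 2 * hZ n Z' (fun _ => T1 + m * A) := h10
        _ ≤ C * m * K ^ 2 * hZ n Z' (fun _ => T1 + m * A) + m * K ^ 2 * hZ n Z' (fun _ => T1 + m * A) := by
          linarith
        _ = _ := by ring
    exact le_of_mul_le_mul_right h11 (by linarith)
  refine ⟨c / (2 * ((C : ℝ) + 1) * K ^ 3 * (2 * A) ^ D), by positivity,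
    2 * (T1 + A) + (T1 + A * (T₀ + M₀ + 1)), ?_⟩
  intro T hT
  set m : ℕ := (T - T1) / A with hm
  have hmA : m * A ≤ T - T1 := Nat.div_mul_le_self _ _
  have hmA2 : T - T1 < (m + 1) * A := by
    rw [hm]
    exact Nat.lt_mul_of_div_lt (Nat.lt_succ_self _) (by omega)
  have hmT : T₀ + M₀ + 1 ≤ m := by
    rw [hm, Nat.le_div_iff_mul_le (by omega)]
    have h : (T₀ + M₀ + 1) * A = A * (T₀ + M₀ + 1) := Nat.mul_comm _ _
    rw [h]
    omega
  have h1 := hlow m (by omega) (by omega) (by omega)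
  have h2 : hZ n Z' (fun _ => T1 + m * A) ≤ K * hZ n Z' (fun _ => T) := by
    apply hM'
    intro i
    show T1 + m * A ≤ T
    omega
  have h3 : (T : ℝ) / (2 * A) ≤ m := by
    rw [div_le_iff₀ (by positivity)]
    have h4 : T ≤ m * (2 * A) := by
      have h5 : (m + 1) * A = m * A + A := by ring
      have h6 : m * (2 * A) = 2 * (m * A) := by ring
      rw [h6]
      omega
    exact_mod_cast h4
  have h7 : ((T : ℝ) / (2 * A)) ^ D ≤ (m : ℝ) ^ D := pow_le_pow_left₀ (by positivity) h3 D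
  have h8 : (hZ n Z' (fun _ => T1 + m * A) : ℝ) ≤ K * hZ n Z' (fun _ => T) := by exact_mod_cast h2
  have h9 : c / 2 * ((T : ℝ) / (2 * A)) ^ D ≤ ((C : ℝ) + 1) * K ^ 3 * hZ n Z' (fun _ => T) := by
    calc c / 2 * ((T : ℝ) / (2 * A)) ^ D ≤ c / 2 * (m : ℝ) ^ D :=
          mul_le_mul_of_nonneg_left h7 (by positivity)
      _ ≤ ((C : ℝ) + 1) * K ^ 2 * hZ n Z' (fun _ => T1 + m * A) := h1
      _ ≤ ((C : ℝ) + 1) * K ^ 2 * (K * hZ n Z' (fun _ => T)) :=
          mul_le_mul_of_nonneg_left h8 (by positivity)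
      _ = _ := by ring
  have h10 : c / (2 * ((C : ℝ) + 1) * K ^ 3 * (2 * A) ^ D) * (T : ℝ) ^ D =
      (c / 2 * ((T : ℝ) / (2 * A)) ^ D) / (((C : ℝ) + 1) * K ^ 3) := by
    rw [div_pow]
    field_simp
  rw [h10, div_le_iff₀ (by positivity)]
  linarith

end Pool.Agent.CVX
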